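import Pool.Agent.H74.G.R_seed8.W564.SC.Lib
import Pool.Agent.H74.G.R_seed8.W451.SC.STEP
import Pool.Agent.H74.G.R_seed8.W509.SC.DER
import Pool.Agent.H74.G.R_seed8.W509.SC.ACM
import Pool.Agent.H74.G.R_seed8.W357.SC.LB
import Pool.Agent.H74.G.R_seed8.W19.SC.IND
import Pool.Agent.H74.G.R_seed8.W131.SC.Chn
import Pool.Agent.H74.G.R_seed8.W878.SC.ABS
import Pool.Agent.H74.G.R_seed8.W723.SC.E

/-! # Project SC, part E: assembly -/

universe u

namespace Pool.Agent.W564.SC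

theorem t_DER : S_DER.{u} := Pool.Agent.W509.SC.der Pool.Agent.W451.SC.step Pool.Agent.W699.SC.gc

theorem t_ACM : S_ACM.{u} := Pool.Agent.W509.SC.acm t_DER

theorem t_ABS : S_ABS := Pool.Agent.W878.SC.abs (Pool.Agent.W131.SC.chn Pool.Agent.W357.SC.lb Pool.Agent.W19.SC.ind)

theorem t_E : S_E.{u} := Pool.Agent.W723.SC.e t_ACM t_ABS t_CL

end Pool.Agent.W564.SC
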